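import Mathlib
import Pool.Agent.Q77.Sp.Prod

set_option autoImplicit false

/-!
# MP_8b4afa_an: joint realisability of lower and Assouad spectra (Q1, positive answer)

The spectra `Q77.Sp.lowerSpec` and `Q77.Sp.assouadSpec`, and the covering number `Q77.Sp.covN`, are
defined in `Pool/Agent/Q77/Sp/Prod.lean`.
-/

namespace Pool.Agent.Results.MP_8b4afa_an.JointSpectra

open Set Metric Q77.Sp

/-- Condition (J) of the problem file. -/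
def CondJ (φL φA : ℝ → ℝ) : Prop :=
  ∀ l ∈ Ioc (0:ℝ) 1, ∀ θ ∈ Ioc (0:ℝ) 1,
    φL θ ≤ φL (l * θ) - θ * φL l ∧ φL (l * θ) - θ * φL l ≤ φA θ ∧
    θ * φL l ≤ φA (l * θ) - φA θ ∧ φA (l * θ) - φA θ ≤ θ * φA l

/-- The weaker condition, which only uses inequalities between products of covering numbers that
hold for every set. -/
def CondJ' (φL φA : ℝ → ℝ) : Prop :=
  ∀ l ∈ Ioc (0:ℝ) 1, ∀ θ ∈ Ioc (0:ℝ) 1,
    φL θ ≤ φL (l * θ) - θ * φL l ∧ φL (l * θ) - θ * φL l ≤ φA θ ∧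
    φL θ ≤ φA (l * θ) - θ * φA l ∧ φA (l * θ) - θ * φA l ≤ φA θ ∧
    φA θ ≤ φA (l * θ)

lemma cross {φL φA : ℝ → ℝ} {B : ℝ} (hnn : ∀ θ ∈ Ioc (0:ℝ) 1, 0 ≤ φL θ)
    (hB : ∀ θ ∈ Ioc (0:ℝ) 1, φL θ ≤ B)
    (LL : ∀ l ∈ Ioc (0:ℝ) 1, ∀ θ ∈ Ioc (0:ℝ) 1, φL θ ≤ φL (l * θ) - θ * φL l)
    (LA : ∀ l ∈ Ioc (0:ℝ) 1, ∀ θ ∈ Ioc (0:ℝ) 1, φL (l * θ) - θ * φL l ≤ φA θ)
    {l θ : ℝ} (hl : l ∈ Ioc (0:ℝ) 1) (hθ : θ ∈ Ioc (0:ℝ) 1) :
    φL θ * (1 - l) ≤ φA l * (1 - θ) := by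
  have hbdd : BddAbove (φL '' Ioc (0:ℝ) 1) := ⟨B, by rintro x ⟨t, ht, rfl⟩; exact hB t ht⟩
  have hle : ∀ t ∈ Ioc (0:ℝ) 1, φL t ≤ sSup (φL '' Ioc (0:ℝ) 1) :=
    fun t ht => le_csSup hbdd ⟨t, ht, rfl⟩
  have hne : (φL '' Ioc (0:ℝ) 1).Nonempty := ⟨φL 1, 1, ⟨one_pos, le_rfl⟩, rfl⟩
  set κ := sSup (φL '' Ioc (0:ℝ) 1) with hκ
  have hmul : ∀ a ∈ Ioc (0:ℝ) 1, ∀ b ∈ Ioc (0:ℝ) 1, a * b ∈ Ioc (0:ℝ) 1 :=
    fun a ha b hb => ⟨mul_pos ha.1 hb.1, mul_le_one₀ ha.2 hb.1.le hb.2⟩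
  have h1 : κ ≤ (κ - φL θ)/θ := by
    apply csSup_le hne
    rintro x ⟨t, ht, rfl⟩
    rw [le_div_iff₀ hθ.1]
    have h2 := LL t ht θ hθ
    have h3 := hle (t * θ) (hmul t ht θ hθ)
    linarith
  rw [le_div_iff₀ hθ.1] at h1
  have h2 : κ ≤ φA l + l * κ := by
    apply csSup_le hne
    rintro x ⟨t, ht, rfl⟩
    have h3 := LA t ht l hl
    have h4 := hle t ht
    have h5 := LL l hl t ht
    have h6 : 0 ≤ t * φL l := mul_nonneg ht.1.le (hnn l hl)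
    have h7 : l * φL t ≤ l * κ := mul_le_mul_of_nonneg_left h4 hl.1.le
    have h8 : φL (l * t) = φL (t * l) := by rw [mul_comm]
    rw [h8] at h5
    linarith
  calc φL θ * (1 - l) ≤ (κ * (1 - θ)) * (1 - l) :=
        mul_le_mul_of_nonneg_right (by linarith) (by linarith [hl.2])
    _ = (κ * (1 - l)) * (1 - θ) := by ring
    _ ≤ φA l * (1 - θ) :=
        mul_le_mul_of_nonneg_right (by linarith) (by linarith [hθ.2])

lemma jp_of_J {φL φA : ℝ → ℝ} {D : ℝ} (hL : ∀ θ ∈ Ioc (0:ℝ) 1, φL θ ∈ Icc (0:ℝ) D)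
    (hJ : CondJ φL φA) (hle : ∀ θ ∈ Ioc (0:ℝ) 1, φA θ ≤ D * (1 - θ)) :
    JP D φL φA := by
  refine ⟨fun θ hθ => (hL θ hθ).1, hle, fun l hl θ hθ => (hJ l hl θ hθ).1,
    fun l hl θ hθ => (hJ l hl θ hθ).2.1, ?_, ?_, ?_⟩
  · intro l hl θ hθ
    have h1 := cross (fun θ hθ => (hL θ hθ).1) (fun θ hθ => (hL θ hθ).2)
      (fun l hl θ hθ => (hJ l hl θ hθ).1) (fun l hl θ hθ => (hJ l hl θ hθ).2.1) hl hθ
    have h2 := (hJ θ hθ l hl).2.2.1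
    rw [mul_comm θ l] at h2
    linarith
  · intro l hl θ hθ
    have := (hJ l hl θ hθ).2.2.2
    linarith
  · intro l hl θ hθ
    have h1 := (hJ l hl θ hθ).2.2.1
    have h2 := (hL l hl).1
    have h3 : 0 ≤ θ * φL l := mul_nonneg hθ.1.le h2
    linarith

lemma main {d : ℕ} {φL φA : ℝ → ℝ} (h : JP d φL φA) :
    ∃ F : Set (EuclideanSpace ℝ (Fin d)), F.Nonempty ∧ ∀ θ ∈ Ioc (0:ℝ) 1,
      (1 - θ) * lowerSpec θ F = φL θ ∧ (1 - θ) * assouadSpec θ F = φA θ := by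
  have hd : (0:ℝ) ≤ d := Nat.cast_nonneg d
  have hdiv : ∀ a b : ℝ, a ≤ b → a / d ≤ b / d := fun a b hab => div_le_div_of_nonneg_right hab hd
  have h' : JP 1 (fun θ => φL θ / d) (fun θ => φA θ / d) := by
    refine ⟨fun θ hθ => div_nonneg (h.nonneg θ hθ) hd, ?_, ?_, ?_, ?_, ?_, ?_⟩
    · intro θ hθ
      rw [one_mul]
      rcases hd.eq_or_lt with h0 | h0
      · rw [← h0, div_zero]; linarith [hθ.2]
      · rw [div_le_iff₀ h0]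
        linarith [h.le θ hθ]
    · intro l hl θ hθ
      have := hdiv _ _ (h.LL l hl θ hθ)
      calc φL θ / d ≤ (φL (l * θ) - θ * φL l) / d := this
        _ = φL (l * θ) / d - θ * (φL l / d) := by ring
    · intro l hl θ hθ
      have := hdiv _ _ (h.LA l hl θ hθ)
      calc φL (l * θ) / d - θ * (φL l / d) = (φL (l * θ) - θ * φL l) / d := by ring
        _ ≤ φA θ / d := this
    · intro l hl θ hθ
      have := hdiv _ _ (h.AL l hl θ hθ)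
      calc φL θ / d ≤ (φA (l * θ) - θ * φA l) / d := this
        _ = φA (l * θ) / d - θ * (φA l / d) := by ring
    · intro l hl θ hθ
      have := hdiv _ _ (h.AA l hl θ hθ)
      calc φA (l * θ) / d - θ * (φA l / d) = (φA (l * θ) - θ * φA l) / d := by ring
        _ ≤ φA θ / d := this
    · intro l hl θ hθ
      exact hdiv _ _ (h.anti l hl θ hθ)
  have hL : ∀ θ ∈ Ioc (0:ℝ) 1, d * (φL θ / d) = φL θ := by
    intro θ hθ
    rcases hd.eq_or_lt with h0 | h0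
    · have h1 := h.nonneg θ hθ
      have h2 := h.L_le_A hθ
      have h3 := h.le θ hθ
      rw [← h0] at h3 ⊢
      linarith
    · field_simp
  have hA : ∀ θ ∈ Ioc (0:ℝ) 1, d * (φA θ / d) = φA θ := by
    intro θ hθ
    rcases hd.eq_or_lt with h0 | h0
    · have h1 := h.nonneg θ hθ
      have h2 := h.L_le_A hθ
      have h3 := h.le θ hθ
      rw [← h0] at h3 ⊢
      linarith
    · field_simp
  refine ⟨FF d (EE (fun θ => φL θ / d) (fun θ => φA θ / d)), ⟨0, ?_⟩, ?_⟩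
  · intro i
    exact mem_EE.2 (Or.inl (self_mem_piece _ _))
  · intro θ hθ
    rcases hθ.2.eq_or_lt with h1 | h1
    · subst h1
      rw [h.L1, h.A1]
      simp
    · obtain ⟨h2, h3⟩ := spectra h' d hθ.1 h1
      exact ⟨h2.trans (hL θ hθ), h3.trans (hA θ hθ)⟩

/-- Q1 has a positive answer: every pair satisfying (J), with `φA` `d`-Lipschitz and `φA 1 = 0`, is
the pair of normalised lower and Assouad spectra of some `F ⊆ ℝ^d`.  The same holds for the pairs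
satisfying the weaker condition `CondJ'`. -/
theorem result :
    (∀ (d : ℕ) (φL φA : ℝ → ℝ),
      (∀ θ ∈ Ioc (0:ℝ) 1, φL θ ∈ Icc (0:ℝ) d ∧ φA θ ∈ Icc (0:ℝ) d) →
      CondJ φL φA →
      (∀ θ ∈ Ioc (0:ℝ) 1, ∀ η ∈ Ioc (0:ℝ) 1, |φA θ - φA η| ≤ d * |θ - η|) →
      φA 1 = 0 →
      ∃ F : Set (EuclideanSpace ℝ (Fin d)), F.Nonempty ∧ ∀ θ ∈ Ioc (0:ℝ) 1,
        (1 - θ) * lowerSpec θ F = φL θ ∧ (1 - θ) * assouadSpec θ F = φA θ) ∧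
    (∀ (d : ℕ) (φL φA : ℝ → ℝ),
      (∀ θ ∈ Ioc (0:ℝ) 1, φL θ ∈ Icc (0:ℝ) d ∧ φA θ ∈ Icc (0:ℝ) d) →
      CondJ' φL φA →
      (∀ θ ∈ Ioc (0:ℝ) 1, φA θ ≤ d * (1 - θ)) →
      ∃ F : Set (EuclideanSpace ℝ (Fin d)), F.Nonempty ∧ ∀ θ ∈ Ioc (0:ℝ) 1,
        (1 - θ) * lowerSpec θ F = φL θ ∧ (1 - θ) * assouadSpec θ F = φA θ) := by
  constructor
  · intro d φL φA hr hJ hlip h1
    apply main
    apply jp_of_J (fun θ hθ => (hr θ hθ).1) hJ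
    intro θ hθ
    have := hlip θ hθ 1 ⟨one_pos, le_rfl⟩
    rw [h1, sub_zero, abs_sub_comm, abs_of_nonneg (by linarith [hθ.2] : 0 ≤ 1 - θ)] at this
    exact (le_abs_self _).trans this
  · intro d φL φA hr hJ hle
    apply main
    exact ⟨fun θ hθ => (hr θ hθ).1.1, hle, fun l hl θ hθ => (hJ l hl θ hθ).1,
      fun l hl θ hθ => (hJ l hl θ hθ).2.1, fun l hl θ hθ => (hJ l hl θ hθ).2.2.1,
      fun l hl θ hθ => (hJ l hl θ hθ).2.2.2.1, fun l hl θ hθ => (hJ l hl θ hθ).2.2.2.2⟩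

end Pool.Agent.Results.MP_8b4afa_an.JointSpectra
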